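import Pool.Agent.Q19.JL.Fin3

/-!
# The discriminant bound in genus one, over all number fields, for curves of all heights: the exact
# exponent `4` for all twists

In genus `1` the problem asks for constants `c`, `κ` with `Δ_E ≤ c N_E ^ κ` for all elliptic curves
`E` over the number field `K`. Here `disc E` is the norm of the minimal discriminant and `cond E` is
the part prime to six of the norm of the conductor: the product of the norms of the primes of
multiplicative reduction and of the squares of the norms of the primes of additive reduction (so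
`cond E ≤ N_E ≤ C_K cond E`).

The invariants `j ∈ K` of all heights are ordered by the product `radical j` of the norms of the
primes (not dividing six) at which `j` reduces to `0`, `1728` or `∞`. We show that

* there are `X ^ (2 / 3 + o(1))` invariants with `radical j ≤ X`;
* for every `κ > 4` and every `c > 0`, for all invariants outside a set of power-saving proportion,
  ALL elliptic curves over `K` of invariant `j` (all twists) satisfy
  `disc E ≤ c (cond E) ^ κ`;
* for every `κ < 4` and every `c > 0`, for all invariants outside a set of power-saving proportion,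
  some elliptic curve over `K` of invariant `j` satisfies `disc E > c (cond E) ^ κ`.

The proof combines the theorem of the library on almost all points of the line `x + y + z = 0` over a
number field (points of all heights, ordered by the radical) with the exact exponents of the minimal
discriminant outside six: for additive reduction at most `8` at the simple zeros of `j`, `9` at those
of `j - 1728`, `7` at the simple poles and `6` elsewhere.
-/

set_option autoImplicit false

namespace Pool.Agent.Results.MP_ca2859_nt.EllipticCurvesAllHeights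

open NumberField IsDedekindDomain

/-- the equation is integral at `v` -/
def IntAt {K : Type} [Field K] [NumberField K] (v : HeightOneSpectrum (𝓞 K))
    (E : WeierstrassCurve K) : Prop :=
  v.valuation K E.a₁ ≤ 1 ∧ v.valuation K E.a₂ ≤ 1 ∧ v.valuation K E.a₃ ≤ 1 ∧
    v.valuation K E.a₄ ≤ 1 ∧ v.valuation K E.a₆ ≤ 1

/-- the exponent of `v` in the minimal discriminant of the curve: the least valuation at `v` of the
discriminant of a Weierstrass equation of the curve over `K` which is integral at `v` -/
noncomputable def discExp {K : Type} [Field K] [NumberField K] (v : HeightOneSpectrum (𝓞 K))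
    (E : WeierstrassCurve K) : ℕ :=
  sInf {m : ℕ | ∃ C : WeierstrassCurve.VariableChange K, IntAt v (C • E) ∧
    v.valuation K (C • E).Δ = WithZero.exp (-(m : ℤ))}

/-- the norm `Δ_E` of the minimal discriminant -/
noncomputable def disc {K : Type} [Field K] [NumberField K] (E : WeierstrassCurve K) : ℝ :=
  ∏ᶠ v : HeightOneSpectrum (𝓞 K), (Ideal.absNorm v.asIdeal : ℝ) ^ discExp v E

/-- good reduction at `v`: some Weierstrass equation over `K` of the curve is integral at `v` and
has a discriminant which is a unit at `v` -/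
def GoodAt {K : Type} [Field K] [NumberField K] (v : HeightOneSpectrum (𝓞 K))
    (E : WeierstrassCurve K) : Prop :=
  ∃ C : WeierstrassCurve.VariableChange K,
    v.valuation K (C • E).a₁ ≤ 1 ∧ v.valuation K (C • E).a₂ ≤ 1 ∧ v.valuation K (C • E).a₃ ≤ 1 ∧
    v.valuation K (C • E).a₄ ≤ 1 ∧ v.valuation K (C • E).a₆ ≤ 1 ∧ v.valuation K (C • E).Δ = 1

/-- semistable (good or multiplicative) reduction at `v`: some Weierstrass equation over `K` of the
curve is integral at `v` and its discriminant or its invariant `c₄` is a unit at `v` -/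
def SemistableAt {K : Type} [Field K] [NumberField K] (v : HeightOneSpectrum (𝓞 K))
    (E : WeierstrassCurve K) : Prop :=
  ∃ C : WeierstrassCurve.VariableChange K,
    v.valuation K (C • E).a₁ ≤ 1 ∧ v.valuation K (C • E).a₂ ≤ 1 ∧ v.valuation K (C • E).a₃ ≤ 1 ∧
    v.valuation K (C • E).a₄ ≤ 1 ∧ v.valuation K (C • E).a₆ ≤ 1 ∧
    (v.valuation K (C • E).Δ = 1 ∨ v.valuation K (C • E).c₄ = 1)

/-- the product of the norms of the primes of multiplicative reduction not dividing six -/
noncomputable def multNorm {K : Type} [Field K] [NumberField K] (E : WeierstrassCurve K) : ℝ :=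
  ∏ᶠ v ∈ {v : HeightOneSpectrum (𝓞 K) |
    ¬ GoodAt v E ∧ SemistableAt v E ∧ v.valuation K 6 = 1}, (Ideal.absNorm v.asIdeal : ℝ)

/-- the product of the squares of the norms of the primes of additive reduction not dividing six -/
noncomputable def addNorm {K : Type} [Field K] [NumberField K] (E : WeierstrassCurve K) : ℝ :=
  ∏ᶠ v ∈ {v : HeightOneSpectrum (𝓞 K) | ¬ SemistableAt v E ∧ v.valuation K 6 = 1},
    (Ideal.absNorm v.asIdeal : ℝ) ^ 2

/-- the part prime to six of the norm of the conductor -/
noncomputable def cond {K : Type} [Field K] [NumberField K] (E : WeierstrassCurve K) : ℝ :=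
  multNorm E * addNorm E

/-- the product of the norms of the primes not dividing six at which `j` reduces to `0`, `1728` or
`∞` -/
noncomputable def radical {K : Type} [Field K] [NumberField K] (j : K) : ℝ :=
  ∏ᶠ v ∈ {v : HeightOneSpectrum (𝓞 K) | v.valuation K 6 = 1 ∧
    (v.valuation K j ≠ 1 ∨ v.valuation K (j - 1728) ≠ 1)}, (Ideal.absNorm v.asIdeal : ℝ)

/-- the invariants `j ≠ 0, 1728`, of whatever height, with `radical j ≤ X` -/
def Invariants (K : Type) [Field K] [NumberField K] (X : ℝ) : Set K :=
  {j | j ≠ 0 ∧ j ≠ 1728 ∧ radical j ≤ X}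

/-- `Δ_E ≤ c N_E ^ κ` for all elliptic curves `E` over `K` of invariant `j` -/
def Holds {K : Type} [Field K] [NumberField K] (κ c : ℝ) (j : K) : Prop :=
  ∀ E : WeierstrassCurve K, E.Δ ≠ 0 → E.c₄ ^ 3 / E.Δ = j → disc E ≤ c * cond E ^ κ

theorem inv_eq (K : Type) [Field K] [NumberField K] (X : ℝ) :
    Invariants K X = Pool.Agent.Q19.JL.Iv K X := by
  ext j
  constructor
  · rintro ⟨h0, h1, h2⟩
    refine ⟨h0, h1, ?_⟩
    rw [← Pool.Agent.Q19.JL.rad_eq h0 h1]
    exact h2
  · rintro ⟨h0, h1, h2⟩
    refine ⟨h0, h1, ?_⟩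
    rw [← Pool.Agent.Q19.JL.rad_eq h0 h1] at h2
    exact h2

theorem holds_iff {K : Type} [Field K] [NumberField K] {κ c : ℝ} (hc : 0 < c)
    (E : WeierstrassCurve K) (hE : E.Δ ≠ 0) : disc E ≤ c * cond E ^ κ ↔
      Pool.Agent.Y733.FF.discSum E ≤ κ * Pool.Agent.Q19.JL.lc E + Real.log c := by
  have h1 : 0 < multNorm E := Pool.Agent.Y733.FF.multN_pos E hE
  have h2 : 0 < addNorm E := Pool.Agent.Y733.FF.addN_pos E hE
  have h3 : 0 < cond E := mul_pos h1 h2
  have h4 : Real.log (cond E) = Pool.Agent.Q19.JL.lc E := by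
    unfold cond
    rw [Real.log_mul h1.ne' h2.ne']
    rfl
  have h5 : disc E = Real.exp (Pool.Agent.Y733.FF.discSum E) :=
    Pool.Agent.Q19.JL.disc_prod E hE
  have h6 : c * cond E ^ κ = Real.exp (κ * Pool.Agent.Q19.JL.lc E + Real.log c) := by
    rw [Real.exp_add, Real.exp_log hc, ← h4, Real.rpow_def_of_pos h3, mul_comm (Real.log _) κ,
      mul_comm c]
  rw [h5, h6, Real.exp_le_exp]

/-- **Szpiro's inequality for almost all elliptic curves over a number field, all heights, all
twists, with the exact exponent `4`.** -/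
theorem result (K : Type) [Field K] [NumberField K] :
    (∀ δ : ℝ, 0 < δ → ∃ X₀ : ℝ, ∀ X : ℝ, X₀ ≤ X → (Invariants K X).Finite ∧
      X ^ (2 / 3 - δ) ≤ ((Invariants K X).ncard : ℝ) ∧
      ((Invariants K X).ncard : ℝ) ≤ X ^ (2 / 3 + δ)) ∧
    (∀ κ c : ℝ, 4 < κ → 0 < c → ∃ ν X₀ : ℝ, 0 < ν ∧ ∀ X : ℝ, X₀ ≤ X →
      (({j | j ∈ Invariants K X ∧ ¬ Holds κ c j} : Set K).ncard : ℝ) ≤
        X ^ (-ν) * (Invariants K X).ncard) ∧
    (∀ κ c : ℝ, κ < 4 → 0 < c → ∃ ν X₀ : ℝ, 0 < ν ∧ ∀ X : ℝ, X₀ ≤ X →
      (({j | j ∈ Invariants K X ∧ Holds κ c j} : Set K).ncard : ℝ) ≤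
        X ^ (-ν) * (Invariants K X).ncard) := by
  refine ⟨fun δ hδ => ?_, fun κ c hκ hc => ?_, fun κ c hκ hc => ?_⟩
  · obtain ⟨X1, hX1, h1⟩ := Pool.Agent.Q19.JL.Iv_upper K δ hδ
    obtain ⟨X2, hX2, h2⟩ := Pool.Agent.Q19.JL.Iv_lower K δ hδ
    refine ⟨max X1 X2, fun X hX => ?_⟩
    rw [inv_eq]
    exact ⟨Pool.Agent.Q19.JL.Iv_fin K (hX1.trans ((le_max_left _ _).trans hX)),
      h2 X ((le_max_right _ _).trans hX), h1 X ((le_max_left _ _).trans hX)⟩
  · obtain ⟨ν, X₀, hν, -, h⟩ := Pool.Agent.Q19.JL.szp_up K κ (Real.log c) hκ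
    refine ⟨ν, X₀, hν, fun X hX => ?_⟩
    rw [inv_eq]
    refine h X hX _ (fun j hj => hj.1) fun j hj => ?_
    by_contra hcon
    refine hj.2 fun E hE hjE => ?_
    rw [holds_iff hc E hE]
    by_contra hlt
    exact hcon ⟨E, hE, hjE, not_le.1 hlt⟩
  · obtain ⟨ν, X₀, hν, -, h⟩ := Pool.Agent.Q19.JL.szp_low K κ (Real.log c) hκ
    refine ⟨ν, X₀, hν, fun X hX => ?_⟩
    rw [inv_eq]
    refine h X hX _ (fun j hj => hj.1) fun j hj E hE hjE => ?_
    exact (holds_iff hc E hE).1 (hj.2 E hE hjE)

end Pool.Agent.Results.MP_ca2859_nt.EllipticCurvesAllHeights
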