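import Mathlib
import Pool.Agent.Q158.RR
import Pool.Agent.Results.MP_ca2859_nt.HeightWindows

/-!
# The discriminant bound for all hyperelliptic curves with Weierstrass points of random height

Hyperelliptic curves of genus `g ≥ 2` over a number field `K` all of whose Weierstrass points are rational: the twists by
`d ∈ K*` of `y² = X ∏ (X - x_i)`, where `x` is a point of `P^{2g-1}(K)` with `0, x_i` different. If the integer `N` is
given by digits or by multiples of a random real number (in the sense of `RandomReals s`), then for all `c > 0` the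
inequality `Δ_C ≤ c M_C ^ κ` holds for ALL twists of ALL such configurations `x` for which `H_K(x) ^ (2g)` is at a bounded
distance from `N`, if `κ > 4 g + 4` and `expo g κ ≤ 2 g s`; if `κ < 4 g + 4` and `expoBelow g κ ≤ 2 g s` it fails for some
twist of EACH such `x`.
-/

set_option autoImplicit false

open NumberField Height Finset LinearAlgebra.Projectivization Polynomial
open Pool.Agent.W318 (discNorm badNorm)

namespace Pool.Agent.Results.MP_ca2859_nt.RandomHeights

open HeightWindows (roots curve expo expoBelow)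

/-- the inequality `Δ_C ≤ c M_C ^ κ` holds for ALL configurations `P` with different roots and
`|H_K(P) ^ (2 g) - N| ≤ k` and ALL twists `d` -/
def Good (K : Type) [Field K] [NumberField K] (g n : ℕ) (κ c : ℝ) (k N : ℕ) : Prop :=
  ∀ P : ℙ K (Fin (n + 1) → K), Function.Injective (roots P.rep) → |P.mulHeight ^ (2 * g) - (N : ℝ)| ≤ k →
    ∀ d : K, d ≠ 0 → (discNorm g (curve d P.rep) : ℝ) ≤ c * (badNorm g (curve d P.rep) : ℝ) ^ κ

/-- the inequality `Δ_C ≤ c M_C ^ κ` fails for some twist of EACH configuration `P` with different roots and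
`|H_K(P) ^ (2 g) - N| ≤ k` -/
def Fails (K : Type) [Field K] [NumberField K] (g n : ℕ) (κ c : ℝ) (k N : ℕ) : Prop :=
  ∀ P : ℙ K (Fin (n + 1) → K), Function.Injective (roots P.rep) → |P.mulHeight ^ (2 * g) - (N : ℝ)| ≤ k →
    ∃ d : K, d ≠ 0 ∧ c * (badNorm g (curve d P.rep) : ℝ) ^ κ < (discNorm g (curve d P.rep) : ℝ)

/-- **Theorem.** Let `K` be a number field and `g ≥ 2`. (1) If `κ > 4 g + 4` and `expo g κ / (2 g) ≤ s < 1` (where
`expo g κ < 2 g`), then in the sense of `RandomReals s` (windows of digits in all bases, and integers near the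
multiples `α v_k`, for random real numbers `α`, with Hausdorff dimensions and measures of the exceptional sets), for all
`m` and `k` at once, the inequality `Δ_C ≤ c M_C ^ κ`, `c = 1 / (m + 1)`, holds for ALL configurations `P` with
`|H_K(P) ^ (2 g) - N| ≤ k` and ALL twists. (2) If `0 ≤ κ < 4 g + 4` and `expoBelow g κ / (2 g) ≤ s < 1` (where
`expoBelow g κ < 2 g`), the inequality with `c = m + 1` fails for some twist of EACH such configuration. -/
theorem result (K : Type) [Field K] [NumberField K] (g n : ℕ) (hg : 2 ≤ g) (hn : n + 1 = 2 * g) (κ : ℝ) :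
    (4 * g + 4 < κ → expo g κ / (2 * g) < 1 ∧ ∀ s : ℝ, expo g κ / (2 * g) ≤ s → s < 1 →
      Pool.Agent.Q21.DW.RandomReals s
        (fun (p : ℕ × ℕ) (N : ℕ) => Good K g n κ (1 / ((p.1 : ℝ) + 1)) p.2 N)) ∧
    (0 ≤ κ → κ < 4 * g + 4 → expoBelow g κ / (2 * g) < 1 ∧ ∀ s : ℝ, expoBelow g κ / (2 * g) ≤ s → s < 1 →
      Pool.Agent.Q21.DW.RandomReals s
        (fun (p : ℕ × ℕ) (N : ℕ) => Fails K g n κ ((p.1 : ℝ) + 1) p.2 N)) := by
  have hg2 : (2 : ℝ) ≤ g := by exact_mod_cast hg
  refine ⟨fun hκ => ?_, fun hκ0 hκ => ?_⟩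
  · obtain ⟨h1, h2⟩ := (RationalWeierstrassPoints.result K g n hg hn κ).1 hκ
    have hs0 : 0 ≤ expo g κ := by
      have hk : 0 < κ - 4 * g - 2 := by linarith
      unfold expo
      refine le_min ((by linarith : (0 : ℝ) ≤ 2 * g - 1 / 2).trans (le_max_left _ _)) (le_min ?_ ?_)
      · positivity
      · have : (0 : ℝ) ≤ 2 * g - 1 := by linarith
        positivity
    refine ⟨by rw [div_lt_one (by linarith)]; exact h1, fun s hs hs1 => ?_⟩
    have hc : ∀ m : ℕ, (0 : ℝ) < 1 / ((m : ℝ) + 1) := fun m => by positivity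
    refine Pool.Agent.Q158.RR.mono (Pool.Agent.Q158.RR.random
      (fun m : ℕ => {P : ℙ K (Fin (n + 1) → K) | Function.Injective (roots P.rep) ∧
        ∃ d : K, d ≠ 0 ∧ 1 / ((m : ℝ) + 1) * (badNorm g (curve d P.rep) : ℝ) ^ κ < discNorm g (curve d P.rep)})
      (fun _ P => P.mulHeight ^ (2 * g)) s ((div_nonneg hs0 (by positivity)).trans hs) hs1
      fun m => Pool.Agent.Q158.RR.weaken hs (HeightWindows.count_of hg _
        (fun B => RationalWeierstrassPoints.exceptional K g n κ (1 / ((m : ℝ) + 1)) B) (expo g κ)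
        (fun δ hδ => h2 _ δ (hc m) hδ) (fun P hP B hB hB2 => ⟨hP.1, hB2, hP.2⟩))) id fun p N h => ?_
    intro P hP hw d hd
    by_contra hcon
    push Not at hcon
    exact absurd (h P ⟨hP, d, hd, hcon⟩) (not_lt.2 hw)
  · obtain ⟨h1, h2⟩ := (RationalWeierstrassPoints.result K g n hg hn κ).2 hκ0 hκ
    have hs0 : 0 ≤ expoBelow g κ := by
      unfold expoBelow
      exact (by linarith : (0 : ℝ) ≤ 2 * g - 1 / 2).trans (le_max_left _ _)
    refine ⟨by rw [div_lt_one (by linarith)]; exact h1, fun s hs hs1 => ?_⟩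
    have hc : ∀ m : ℕ, (0 : ℝ) < (m : ℝ) + 1 := fun m => by positivity
    refine Pool.Agent.Q158.RR.mono (Pool.Agent.Q158.RR.random
      (fun m : ℕ => {P : ℙ K (Fin (n + 1) → K) | Function.Injective (roots P.rep) ∧
        ∀ d : K, d ≠ 0 → (discNorm g (curve d P.rep) : ℝ) ≤ ((m : ℝ) + 1) * (badNorm g (curve d P.rep) : ℝ) ^ κ})
      (fun _ P => P.mulHeight ^ (2 * g)) s ((div_nonneg hs0 (by positivity)).trans hs) hs1
      fun m => Pool.Agent.Q158.RR.weaken hs (HeightWindows.count_of hg _
        (fun B => RationalWeierstrassPoints.uniform K g n κ ((m : ℝ) + 1) B) (expoBelow g κ)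
        (fun δ hδ => h2 _ δ (hc m) hδ) (fun P hP B hB hB2 => ⟨hP.1, hB2, hP.2⟩))) id fun p N h => ?_
    intro P hP hw
    by_contra hcon
    push Not at hcon
    exact absurd (h P ⟨hP, hcon⟩) (not_lt.2 hw)

end Pool.Agent.Results.MP_ca2859_nt.RandomHeights
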