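import Mathlib
import Pool.Agent.Q19.TR.Low4
import Pool.Agent.Q19.JL.Fin2

/-!
# Trinomial hyperelliptic curves over number fields: Szpiro's inequality for all heights

The curves `y² = a x ^ n + b x + c` of genus `g ≥ 2`, where `n = 2 g + 1` or `n = 2 g + 2` and
`a b c ≠ 0`, over a number field `K`. Their geometric isomorphism class is determined by
`invariant n a b c = (-1) ^ n (n - 1) ^ (n - 1) b ^ n / (n ^ n a c ^ (n - 1))`, and the discriminant
of the trinomial vanishes if and only if the invariant is `1`. The invariants `s ≠ 0, 1` in `K`, of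
all heights, are ordered by the product `radical s` of the norms of the primes, not dividing six, at
which `s` reduces to `0`, `1` or `∞`. `Δ_C` and `M_C` are `discNorm` and `badNorm` of
`Pool/Agent/W318/SzpDefs.lean`.

We show that there are `X ^ (2 / 3 + o(1))` invariants with `radical s ≤ X`, and that, for all
invariants outside a set of power-saving proportion, `Δ_C ≤ c₀ M_C ^ κ` holds for ALL curves
`y² = a x ^ n + b x + c` over `K` of invariant `s` (all twists) if `κ > 8 (2 g + 1) / 3`, and fails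
for one of them if `κ < 8 (2 g + 1) / 3`.
-/

set_option autoImplicit false

namespace Pool.Agent.Results.MP_ca2859_nt.TrinomialCurves

open Polynomial NumberField IsDedekindDomain
open Pool.Agent.W318 (IsHyp discNorm badNorm)

/-- the right hand side of `y² = a x ^ n + b x + c` -/
noncomputable def trinomial {K : Type} [Field K] (n : ℕ) (a b c : K) : K[X] :=
  C a * X ^ n + C b * X + C c

/-- the invariant of the curve `y² = a x ^ n + b x + c` -/
noncomputable def invariant {K : Type} [Field K] (n : ℕ) (a b c : K) : K :=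
  (-1) ^ n * ((n - 1 : ℕ) : K) ^ (n - 1) * b ^ n / ((n : K) ^ n * a * c ^ (n - 1))

/-- the product of the norms of the primes not dividing six at which `s` reduces to `0`, `1` or
`∞` -/
noncomputable def radical {K : Type} [Field K] [NumberField K] (s : K) : ℝ :=
  ∏ᶠ v ∈ {v : HeightOneSpectrum (𝓞 K) | v.valuation K 6 = 1 ∧
    (v.valuation K s ≠ 1 ∨ v.valuation K (s - 1) ≠ 1)}, (Ideal.absNorm v.asIdeal : ℝ)

/-- the `s ≠ 0, 1` in `K`, of whatever height, with `radical s ≤ X` -/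
def Invariants (K : Type) [Field K] [NumberField K] (X : ℝ) : Set K :=
  {s | s ≠ 0 ∧ s ≠ 1 ∧ radical s ≤ X}

/-- all curves `y² = a x ^ n + b x + c` over `K` of invariant `s` satisfy `Δ_C ≤ c₀ M_C ^ κ` -/
def Holds {K : Type} [Field K] [NumberField K] (g n : ℕ) (κ c₀ : ℝ) (s : K) : Prop :=
  ∀ a b c : K, a ≠ 0 → b ≠ 0 → c ≠ 0 → invariant n a b c = s →
    (discNorm g (trinomial n a b c) : ℝ) ≤ c₀ * (badNorm g (trinomial n a b c) : ℝ) ^ κ

section aux

variable {K : Type} [Field K] [NumberField K]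

theorem radical_eq {s : K} (h0 : s ≠ 0) (h1 : s ≠ 1) :
    radical s = Real.exp (Pool.Agent.Q19.JL.RR (Pool.Agent.Q19.JL.zz (1728 * s))) := by
  have n1728 : (1728 : K) ≠ 0 := by norm_num
  rw [← Pool.Agent.Q19.JL.rad_eq (mul_ne_zero n1728 h0) (fun h => h1 (by
    have : (1728 : K) * s = 1728 * 1 := by rw [h, mul_one]
    exact mul_left_cancel₀ n1728 this))]
  unfold radical
  have : {v : HeightOneSpectrum (𝓞 K) | v.valuation K 6 = 1 ∧
      (v.valuation K s ≠ 1 ∨ v.valuation K (s - 1) ≠ 1)} =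
      {v : HeightOneSpectrum (𝓞 K) | v.valuation K 6 = 1 ∧
      (v.valuation K (1728 * s) ≠ 1 ∨ v.valuation K (1728 * s - 1728) ≠ 1)} := by
    ext v
    simp only [Set.mem_ofPred_eq]
    refine and_congr_right fun h6 => ?_
    have h7 : v.valuation K (1728 : K) = 1 := by
      have e6 : Pool.Agent.H691R3.fv v (6 : K) = 1 := Pool.Agent.Y733.FF.fv_one_iff v |>.2 h6
      rw [← Pool.Agent.Y733.FF.fv_one_iff]
      refine Pool.Agent.Q19.JL.fv1728 ?_
      rw [Pool.Agent.Q19.JL.mem_T6, not_not]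
      exact e6
    rw [show (1728 : K) * s - 1728 = 1728 * (s - 1) by ring, map_mul, map_mul, h7, one_mul,
      one_mul]
  rw [this]

theorem mem_inv {X : ℝ} {s : K} :
    s ∈ Invariants K X ↔ 1728 * s ∈ Pool.Agent.Q19.JL.Iv K X := by
  have n1728 : (1728 : K) ≠ 0 := by norm_num
  have e1 : (1728 : K) * s ≠ 1728 ↔ s ≠ 1 := by
    constructor
    · rintro h rfl
      exact h (mul_one _)
    · intro h h2
      exact h (mul_left_cancel₀ n1728 (h2.trans (mul_one _).symm))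
  constructor
  · rintro ⟨h0, h1, h2⟩
    refine ⟨mul_ne_zero n1728 h0, e1.2 h1, ?_⟩
    rw [← radical_eq h0 h1]
    exact h2
  · rintro ⟨h0, h1, h2⟩
    have h0' : s ≠ 0 := fun h => h0 (by rw [h, mul_zero])
    refine ⟨h0', e1.1 h1, ?_⟩
    rw [radical_eq h0' (e1.1 h1)]
    exact h2

theorem inj1728 : Function.Injective fun s : K => 1728 * s := fun x y h =>
  mul_left_cancel₀ (by norm_num : (1728 : K) ≠ 0) h

theorem image_eq (X : ℝ) :
    (fun s : K => 1728 * s) '' Invariants K X = Pool.Agent.Q19.JL.Iv K X := by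
  have n1728 : (1728 : K) ≠ 0 := by norm_num
  ext j
  constructor
  · rintro ⟨s, hs, rfl⟩
    exact mem_inv.1 hs
  · intro hj
    have e : 1728 * (j / 1728) = j := mul_div_cancel₀ j n1728
    exact ⟨j / 1728, mem_inv.2 (by rw [e]; exact hj), e⟩

theorem card_eq (X : ℝ) : (Invariants K X).ncard = (Pool.Agent.Q19.JL.Iv K X).ncard := by
  rw [← image_eq, Set.ncard_image_of_injective _ inj1728]

theorem inv_iff {m : ℕ} {s a b c : K} (ha : a ≠ 0) (hc : c ≠ 0) :
    invariant (m + 1) a b c = s ↔ Pool.Agent.Q19.TR.IsInv m s a b c := by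
  have hn0 : ((m + 1 : ℕ) : K) ≠ 0 := Nat.cast_ne_zero.2 (by omega)
  have hd : ((m + 1 : ℕ) : K) ^ (m + 1) * a * c ^ m ≠ 0 :=
    mul_ne_zero (mul_ne_zero (pow_ne_zero _ hn0) ha) (pow_ne_zero _ hc)
  have hss : ((-1 : K)) ^ (m + 1) * (-1) ^ (m + 1) = 1 := by
    rw [← mul_pow]; simp
  unfold invariant Pool.Agent.Q19.TR.IsInv
  rw [Nat.add_sub_cancel, div_eq_iff hd]
  constructor
  · intro h
    calc (m : K) ^ m * b ^ (m + 1) = ((-1) ^ (m + 1) * (-1) ^ (m + 1)) *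
        ((m : K) ^ m * b ^ (m + 1)) := by rw [hss, one_mul]
      _ = (-1) ^ (m + 1) * ((-1) ^ (m + 1) * (m : K) ^ m * b ^ (m + 1)) := by ring
      _ = _ := by rw [h]; ring
  · intro h
    calc (-1) ^ (m + 1) * (m : K) ^ m * b ^ (m + 1) =
        (-1) ^ (m + 1) * ((m : K) ^ m * b ^ (m + 1)) := by ring
      _ = ((-1) ^ (m + 1) * (-1) ^ (m + 1)) *
        (((m + 1 : ℕ) : K) ^ (m + 1) * s * (a * c ^ m)) := by rw [h]; ring
      _ = _ := by rw [hss]; ring

theorem ineq_iff {g : ℕ} {F : K[X]} {κ c₀ : ℝ} (hc : 0 < c₀) :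
    (discNorm g F : ℝ) ≤ c₀ * (badNorm g F : ℝ) ^ κ ↔
      Real.log (discNorm g F) ≤ κ * Real.log (badNorm g F) + Real.log c₀ := by
  have h1 : (0 : ℝ) < discNorm g F := Pool.Agent.Q19.TR.disc_pos g F
  have h2 : (0 : ℝ) < badNorm g F := Pool.Agent.Q19.TR.bad_pos g F
  rw [← Real.log_le_log_iff h1 (mul_pos hc (Real.rpow_pos_of_pos h2 κ)),
    Real.log_mul hc.ne' (Real.rpow_pos_of_pos h2 κ).ne', Real.log_rpow h2, add_comm]

end aux

/-- **Szpiro's inequality for the trinomial curves of almost all invariants.** -/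
theorem result (K : Type) [Field K] [NumberField K] (g n : ℕ) (hg : 2 ≤ g)
    (hn : n = 2 * g + 1 ∨ n = 2 * g + 2) :
    (∀ a b c : K, a ≠ 0 → b ≠ 0 → c ≠ 0 → invariant n a b c ≠ 1 → IsHyp g (trinomial n a b c)) ∧
    (∀ δ : ℝ, 0 < δ → ∃ X₀ : ℝ, ∀ X : ℝ, X₀ ≤ X → (Invariants K X).Finite ∧
      X ^ (2 / 3 - δ) ≤ ((Invariants K X).ncard : ℝ) ∧
      ((Invariants K X).ncard : ℝ) ≤ X ^ (2 / 3 + δ)) ∧
    (∀ κ c₀ : ℝ, 8 * (2 * g + 1) / 3 < κ → 0 < c₀ → ∃ ν X₀ : ℝ, 0 < ν ∧ ∀ X : ℝ, X₀ ≤ X →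
      (({s | s ∈ Invariants K X ∧ ¬ Holds g n κ c₀ s} : Set K).ncard : ℝ) ≤
        X ^ (-ν) * (Invariants K X).ncard) ∧
    (∀ κ c₀ : ℝ, κ < 8 * (2 * g + 1) / 3 → 0 < c₀ → ∃ ν X₀ : ℝ, 0 < ν ∧ ∀ X : ℝ, X₀ ≤ X →
      (({s | s ∈ Invariants K X ∧ Holds g n κ c₀ s} : Set K).ncard : ℝ) ≤
        X ^ (-ν) * (Invariants K X).ncard) := by
  obtain ⟨m, rfl⟩ : ∃ m, n = m + 1 := ⟨n - 1, by omega⟩
  have hm : m = 2 * g ∨ m = 2 * g + 1 := by omega
  have n1728 : (1728 : K) ≠ 0 := by norm_num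
  refine ⟨fun a b c ha hb hc h => ?_, fun δ hδ => ?_, fun κ c₀ hκ hc₀ => ?_,
    fun κ c₀ hκ hc₀ => ?_⟩
  · exact Pool.Agent.Q19.TR.hyp_tri hm hg ha hb hc h ((inv_iff ha hc).1 rfl)
  · obtain ⟨X1, hX1, h1⟩ := Pool.Agent.Q19.JL.Iv_upper K δ hδ
    obtain ⟨X2, hX2, h2⟩ := Pool.Agent.Q19.JL.Iv_lower K δ hδ
    refine ⟨max X1 X2, fun X hX => ?_⟩
    have hfin := Pool.Agent.Q19.JL.Iv_fin K (hX1.trans ((le_max_left _ _).trans hX))
    rw [card_eq]
    refine ⟨?_, h2 X ((le_max_right _ _).trans hX), h1 X ((le_max_left _ _).trans hX)⟩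
    rw [← image_eq] at hfin
    exact hfin.of_finite_image inj1728.injOn
  · obtain ⟨ν, X₀, hν, -, h⟩ := Pool.Agent.Q19.TR.szp_up K hm hg κ (Real.log c₀)
      (by have : (4 : ℝ) * (4 * g + 2) / 3 = 8 * (2 * g + 1) / 3 := by ring
          rw [this]; exact hκ)
    refine ⟨ν, X₀, hν, fun X hX => ?_⟩
    rw [card_eq, ← Set.ncard_image_of_injective _ (inj1728 (K := K))]
    refine h X hX _ ?_ ?_
    · rintro j ⟨s, hs, rfl⟩
      exact mem_inv.1 hs.1
    · rintro j ⟨s, ⟨hs1, hs2⟩, rfl⟩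
      by_contra hcon
      refine hs2 fun a b c ha hb hc hinv => ?_
      have e : 1728 * s / 1728 = s := mul_div_cancel_left₀ s n1728
      rw [inv_iff ha hc] at hinv
      rw [ineq_iff hc₀]
      by_contra hlt
      refine hcon ⟨a, b, c, ha, hb, hc, ?_, not_le.1 hlt⟩
      show Pool.Agent.Q19.TR.IsInv m (1728 * s / 1728) a b c
      rw [e]
      exact hinv
  · obtain ⟨ν, X₀, hν, -, h⟩ := Pool.Agent.Q19.TR.szp_low K hm hg κ (Real.log c₀)
      (by have : (4 : ℝ) * (4 * g + 2) / 3 = 8 * (2 * g + 1) / 3 := by ring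
          rw [this]; exact hκ)
    refine ⟨ν, X₀, hν, fun X hX => ?_⟩
    rw [card_eq, ← Set.ncard_image_of_injective _ (inj1728 (K := K))]
    refine h X hX _ ?_ ?_
    · rintro j ⟨s, hs, rfl⟩
      exact mem_inv.1 hs.1
    · rintro j ⟨s, ⟨hs1, hs2⟩, rfl⟩
      have e : 1728 * s / 1728 = s := mul_div_cancel_left₀ s n1728
      show Real.log (discNorm g (Pool.Agent.Q19.TR.ext m (1728 * s / 1728))) ≤
        κ * Real.log (badNorm g (Pool.Agent.Q19.TR.ext m (1728 * s / 1728))) + Real.log c₀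
      rw [e, ← ineq_iff hc₀]
      obtain ⟨-, ht, hD0⟩ := Pool.Agent.Q19.TR.hyp_ext hm hg hs1.1 hs1.2.1
      exact (hs2 _ _ _ hD0 (mul_ne_zero hD0 ht) (mul_ne_zero hD0 ht) ((inv_iff hD0
        (mul_ne_zero hD0 ht)).2 (Pool.Agent.Q19.TR.isInv_twist _
          (Pool.Agent.Q19.TR.twt_eq (by omega) s))))

end Pool.Agent.Results.MP_ca2859_nt.TrinomialCurves
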