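import Pool.Agent.Q245.Sz.Main

/-!
# The discriminant bound for hyperelliptic curves of one genus over one field contains the weak abc conjecture

`IsHyp`, `minExp`, `discNorm`, `badNorm` are the definitions of `Pool/Agent/W318/SzpDefs.lean`: `IsHyp g F` says that
`y² = F(x)` is a hyperelliptic curve `C` of genus `g`, `minExp g F v` is the exponent `n_v` of the minimal
discriminant (the minimum over all Weierstrass models over the local ring at `v` of the function field of `C`),
`discNorm g F = Δ_C = ∏ N_v ^ n_v`, and `badNorm g F = M_C` is the product of the `N_v` over the places of bad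
reduction. The problem asks, for every number field `K` and every genus `g`, for constants `c`, `κ` with
`Δ_C ≤ c M_C ^ κ` for all hyperelliptic curves `C` over `K` of genus `g` (in this form by the theorem of Lockhart,
Rosen and Silverman).

We show, unconditionally, for EVERY number field `K` and EVERY `g ≥ 2`:

* if the statement holds for the one pair `(K, g)`, then the weak abc conjecture over `ℚ` holds: there are `C`, `A`
  with `a + b ≤ C rad(a b (a + b)) ^ A` for all coprime positive integers `a`, `b`;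
* the inequality `Δ_C ≤ c M_C ^ κ` (for some `c`, `κ`) along the single pencil of curves of genus `g`
  `C_{Y,T} : y² = Y (x ^ (g + 1) + 1)² + 4 T x ^ (g + 1)`, `Y`, `T` coprime positive integers, considered over `K`, is
  EQUIVALENT to the weak abc conjecture over `ℚ`. So for all number fields `K` and all genera `g ≥ 2` these special
  cases are equivalent to each other;
* with exponents: the bound with the exponent `κ ≥ 0` along the pencil implies the abc inequality with the exponent
  `A = κ / (3 g + 1)`, and the abc inequality with the exponent `A ≥ 0` implies the bound along the pencil with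
  `κ = (4 g + 2) [K : ℚ] A`.

For genus `1` it is known (Frey, Hindry, Szpiro) that the statement over `ℚ` implies the weak abc conjecture.

Proof: `disc = ± (g + 1)^(2g+2) Y^(2g) (16 T (Y + T))^(g+1)`, and by the lower bound for the minimal discriminant from the
starting file `ExponentLowerBound` of this problem this is minimal up to a bounded factor at every place of every
number field, although over `K` the curve is not semistable at the places dividing `Y`.
-/

set_option autoImplicit false

namespace Pool.Agent.Results.MP_ca2859_nt.WeakABC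

open Polynomial NumberField Pool.Agent.W318

/-- the product of the prime divisors -/
def rad (n : ℕ) : ℕ := ∏ p ∈ n.primeFactors, p

/-- The statement of the problem for the number field `K` and the genus `g`. -/
def DiscriminantBound (K : Type) [Field K] [NumberField K] (g : ℕ) : Prop :=
  ∃ c κ : ℝ, ∀ F : K[X], IsHyp g F → (discNorm g F : ℝ) ≤ c * (badNorm g F : ℝ) ^ κ

/-- The right hand side of `C_{Y,T} : y² = Y (x ^ (g + 1) + 1)² + 4 T x ^ (g + 1)`. -/
noncomputable def curve (K : Type) [Field K] (g Y T : ℕ) : K[X] :=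
  C (Y : K) * (X ^ (g + 1) + 1) ^ 2 + C (4 * (T : K)) * X ^ (g + 1)

/-- The bound with the exponent `κ` for the curves `C_{Y,T}` over `K`. -/
def PencilBound (K : Type) [Field K] [NumberField K] (g : ℕ) (κ : ℝ) : Prop :=
  ∃ c : ℝ, ∀ Y T : ℕ, 0 < Y → 0 < T → Nat.Coprime Y T →
    (discNorm g (curve K g Y T) : ℝ) ≤ c * (badNorm g (curve K g Y T) : ℝ) ^ κ

/-- The abc inequality over `ℚ` with the exponent `A`. -/
def ABC (A : ℝ) : Prop :=
  ∃ C : ℝ, ∀ a b : ℕ, 0 < a → 0 < b → Nat.Coprime a b →
    ((a + b : ℕ) : ℝ) ≤ C * (rad (a * b * (a + b)) : ℝ) ^ A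

/-- The weak abc conjecture over `ℚ`. -/
def WeakABC : Prop := ∃ A : ℝ, ABC A

lemma rad_one_le (n : ℕ) : (1 : ℝ) ≤ (rad n : ℝ) := by
  have : 0 < rad n := Pool.Agent.Q245.Sz.rad_pos n
  exact_mod_cast this

lemma abc_mono {A B : ℝ} (h : A ≤ B) (hA : ABC A) : ABC B := by
  obtain ⟨C, hC⟩ := hA
  refine ⟨max C 0, fun a b ha hb hab => (hC a b ha hb hab).trans ?_⟩
  have h1 := rad_one_le (a * b * (a + b))
  calc C * (rad (a * b * (a + b)) : ℝ) ^ A ≤ max C 0 * (rad (a * b * (a + b)) : ℝ) ^ A :=
        mul_le_mul_of_nonneg_right (le_max_left _ _) (by positivity)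
    _ ≤ _ := mul_le_mul_of_nonneg_left (Real.rpow_le_rpow_of_exponent_le h1 h) (le_max_right _ _)

lemma pencil_mono {K : Type} [Field K] [NumberField K] {g : ℕ} {κ κ' : ℝ} (h : κ ≤ κ')
    (hP : PencilBound K g κ) : PencilBound K g κ' := by
  obtain ⟨c, hc⟩ := hP
  refine ⟨max c 0, fun Y T hY hT hYT => (hc Y T hY hT hYT).trans ?_⟩
  have h1 : (1 : ℝ) ≤ (badNorm g (curve K g Y T) : ℝ) := by
    exact_mod_cast Pool.Agent.Y678.SZ.one_le_badNorm
      (Pool.Agent.Q245.Sz.hyp (K := K) (g := g) hY hT)
  calc c * (badNorm g (curve K g Y T) : ℝ) ^ κ ≤ max c 0 * (badNorm g (curve K g Y T) : ℝ) ^ κ :=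
        mul_le_mul_of_nonneg_right (le_max_left _ _) (by positivity)
    _ ≤ _ := mul_le_mul_of_nonneg_left (Real.rpow_le_rpow_of_exponent_le h1 h) (le_max_right _ _)

/-- **One genus over one number field suffices for the weak abc conjecture.** -/
theorem result (K : Type) [Field K] [NumberField K] (g : ℕ) (hg : 2 ≤ g) :
    (DiscriminantBound K g → WeakABC) ∧
    ((∃ κ : ℝ, PencilBound K g κ) ↔ WeakABC) ∧
    (∀ κ : ℝ, 0 ≤ κ → PencilBound K g κ → ABC (κ / (3 * g + 1))) ∧
    (∀ A : ℝ, 0 ≤ A → ABC A → PencilBound K g ((4 * g + 2) * Module.finrank ℚ K * A)) := by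
  have h3 : ∀ κ : ℝ, 0 ≤ κ → PencilBound K g κ → ABC (κ / (3 * g + 1)) := fun κ hκ h =>
    Pool.Agent.Q245.Sz.abc_of_pencil hg hκ h
  have h4 : ∀ A : ℝ, 0 ≤ A → ABC A → PencilBound K g ((4 * g + 2) * Module.finrank ℚ K * A) :=
    fun A hA h => Pool.Agent.Q245.Sz.pencil_of_abc K hg hA h
  have h2 : (∃ κ : ℝ, PencilBound K g κ) ↔ WeakABC := by
    constructor
    · rintro ⟨κ, hκ⟩
      exact ⟨_, h3 (max κ 0) (le_max_right _ _) (pencil_mono (le_max_left _ _) hκ)⟩
    · rintro ⟨A, hA⟩
      exact ⟨_, h4 (max A 0) (le_max_right _ _) (abc_mono (le_max_left _ _) hA)⟩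
  refine ⟨?_, h2, h3, h4⟩
  rintro ⟨c, κ, h⟩
  exact h2.1 ⟨κ, c, fun Y T hY hT _ => h _ (Pool.Agent.Q245.Sz.hyp (K := K) (g := g) hY hT)⟩

end Pool.Agent.Results.MP_ca2859_nt.WeakABC
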